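import Mathlib
import Pool.Agent.P.MP_a38e10_co.Main

set_option autoImplicit false

namespace Pool.Agent.Results.MP_a38e10_co.GapThree

/-- The cochromatic number: the least k such that the vertices can be split into k classes, each
of which is a clique or an independent set. -/
noncomputable def cochromaticNumber {V : Type} (G : SimpleGraph V) : ℕ :=
  sInf {k : ℕ | ∃ c : V → Fin k, ∀ i, G.IsClique (c ⁻¹' {i}) ∨ G.IsIndepSet (c ⁻¹' {i})}

/-- For every k at least 5 there is a finite graph without a clique on five vertices, with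
cochromatic number k and chromatic number k + 3. -/
theorem result : ∀ k : ℕ, 5 ≤ k → ∃ (V : Type) (_ : Finite V) (G : SimpleGraph V),
    G.CliqueFree 5 ∧ cochromaticNumber G = k ∧ G.chromaticNumber = (k + 3 : ℕ) := by
  intro k hk
  obtain ⟨s, rfl⟩ : ∃ s, k = s + 3 := ⟨k - 3, by omega⟩
  obtain ⟨W, hW, G, h1, h2, h3, h4, h5⟩ := Pool.Agent.P.MP_a38e10_co.main s
  refine ⟨W, hW, G, h1, ?_, ?_⟩
  · refine le_antisymm (Nat.sInf_le h2) (h3 _ ?_)
    exact Nat.sInf_mem (s := {k : ℕ | ∃ c : W → Fin k,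
      ∀ i, G.IsClique (c ⁻¹' {i}) ∨ G.IsIndepSet (c ⁻¹' {i})}) ⟨_, h2⟩
  · have := SimpleGraph.chromaticNumber_eq_iff_colorable_not_colorable.2 ⟨h4, h5⟩
    rw [this]
    push_cast
    ring

end Pool.Agent.Results.MP_a38e10_co.GapThree
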